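import Pool.Agent.H.MP_7f3d09_an.A

set_option autoImplicit false

namespace Pool.Agent.Results.MP_7f3d09_an.No

/-- Causal matrix sequences. -/
abbrev Seq (p q : ℕ) : Type := ℕ → Matrix (Fin p) (Fin q) ℝ

/-- Absolutely summable entries. -/
def InL1 {p q : ℕ} (X : Seq p q) : Prop := ∀ i j, Summable fun k => |X k i j|

/-- Convolution product. -/
def conv {p q r : ℕ} (X : Seq p q) (Y : Seq q r) : Seq p r :=
  fun k => ∑ t ∈ Finset.range (k + 1), X t * Y (k - t)

/-- The unit for convolution. -/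
def delta (p : ℕ) : Seq p p := fun k => if k = 0 then 1 else 0

/-- The norm: maximum over rows of the sum of the absolute values. -/
noncomputable def norm1 {p q : ℕ} (X : Seq p q) : ℝ := ⨆ i, ∑ j, ∑' k, |X k i j|

/-- Every entry of the transform is a quotient of polynomials. -/
def IsRat {p q : ℕ} (X : Seq p q) : Prop :=
  ∀ i j, ∃ P D : Polynomial ℝ, D ≠ 0 ∧
    (D : PowerSeries ℝ) * PowerSeries.mk (fun k => X k i j) = (P : PowerSeries ℝ)

/-- `Q` is a minimiser. -/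
def Optimal {p q r s : ℕ} (H : Seq p q) (U : Seq p r) (V : Seq s q) (Q : Seq r s) : Prop :=
  InL1 Q ∧ ∀ Q' : Seq r s, InL1 Q' →
    norm1 (H - conv (conv U Q) V) ≤ norm1 (H - conv (conv U Q') V)

theorem fir {p q : ℕ} {X : Seq p q} (h : ∀ k, X (k + 4) = 0) : InL1 X ∧ IsRat X := by
  have z : ∀ k, 4 ≤ k → X k = 0 := fun k hk => by
    obtain ⟨m, rfl⟩ := Nat.exists_eq_add_of_le' hk
    exact h m
  refine ⟨fun i j => summable_of_ne_finset_zero (s := Finset.range 4) fun k hk => ?_, fun i j =>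
    ⟨PowerSeries.trunc 4 (PowerSeries.mk fun k => X k i j), 1, one_ne_zero, ?_⟩⟩
  · simp [z k (by simpa using hk)]
  · ext k
    rw [Polynomial.coe_one, one_mul, Polynomial.coeff_coe, PowerSeries.coeff_trunc]
    split_ifs with hk
    · rfl
    · simp [z k (by simpa using hk)]

/-- Zero padding. -/
def pad (n : ℕ) (c : ℕ → ℝ) (m : ℕ) : ℝ := if m < n then 0 else c (m - n)

theorem cv (c v : ℕ → ℝ) (hv : ∀ m, v (m + 4) = 0) (k : ℕ) :
    ∑ t ∈ Finset.range (k + 1), c t * v (k - t) = v 0 * pad 3 c (k + 3) + v 1 * pad 3 c (k + 2) +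
      v 2 * pad 3 c (k + 1) + v 3 * pad 3 c k := by
  rcases k with _ | _ | _ | k
  · simp [pad, mul_comm]
  · simp [pad, Finset.sum_range_succ]; ring
  · simp [pad, Finset.sum_range_succ]; ring
  · rw [Finset.sum_range_succ, Finset.sum_range_succ, Finset.sum_range_succ, Finset.sum_range_succ,
      Finset.sum_eq_zero fun t ht => by
        have := Finset.mem_range.1 ht
        rw [show k + 1 + 1 + 1 - t = (k - 1 - t) + 4 by omega, hv, mul_zero]]
    simp only [pad]
    rw [if_neg (by omega), if_neg (by omega), if_neg (by omega), if_neg (by omega),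
      show k + 1 + 1 + 1 - k = 3 by omega, show k + 1 + 1 + 1 - (k + 1) = 2 by omega,
      show k + 1 + 1 + 1 - (k + 1 + 1) = 1 by omega, Nat.sub_self,
      show k + 1 + 1 + 1 + 3 - 3 = k + 1 + 1 + 1 by omega,
      show k + 1 + 1 + 1 + 2 - 3 = k + 1 + 1 by omega,
      show k + 1 + 1 + 1 + 1 - 3 = k + 1 by omega, show k + 1 + 1 + 1 - 3 = k by omega]
    ring

/-- A row of two finite sequences. -/
def row (l m : List ℝ) : Seq 1 2 := fun k => Matrix.of fun _ j => ![l.getD k 0, m.getD k 0] j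

/-- A column of two finite sequences. -/
def col (l m : List ℝ) : Seq 2 1 := fun k => Matrix.of fun i _ => ![l.getD k 0, m.getD k 0] i

theorem conv_ap {p r : ℕ} (X : Seq p 1) (Y : Seq 1 r) (k : ℕ) (i : Fin p) (j : Fin r) :
    conv X Y k i j = ∑ t ∈ Finset.range (k + 1), X t i 0 * Y (k - t) 0 j := by
  simp [conv, Matrix.sum_apply, Matrix.mul_apply]

theorem conv_ap2 (X : Seq 1 2) (Y : Seq 2 1) (k : ℕ) :
    conv X Y k 0 0 = ∑ t ∈ Finset.range (k + 1), X t 0 0 * Y (k - t) 0 0 +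
      ∑ t ∈ Finset.range (k + 1), X t 0 1 * Y (k - t) 1 0 := by
  simp [conv, Matrix.sum_apply, Matrix.mul_apply, Finset.sum_add_distrib]

open Pool.Agent.H.MP_7f3d09_an in
theorem result :
    ∃ (H : Seq 2 2) (U : Seq 2 1) (V : Seq 1 2),
      InL1 H ∧ InL1 U ∧ InL1 V ∧ IsRat H ∧ IsRat U ∧ IsRat V ∧
      (∃ L : Seq 1 2, InL1 L ∧ conv L U = delta 1) ∧
      (∃ R : Seq 2 1, InL1 R ∧ conv V R = delta 1) ∧
      (∃ Q, Optimal H U V Q) ∧
      ∀ Q, Optimal H U V Q → ¬ ∃ M ρ : ℝ, 0 < M ∧ ρ < 1 ∧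
        ∀ k i j, |(H - conv (conv U Q) V) k i j| ≤ M * ρ ^ k := by
  let a0 : ℕ → ℝ := fun m => if m < 4 then a m else 0
  let H : Seq 2 2 := fun k => !![F1 a0 k, F2 a0 k; 0, 0]
  let V : Seq 1 2 := row [1, -2, -2, 1] [1, -3, 3, -1]
  let Q0 : Seq 1 1 := fun k => Matrix.of fun _ _ => a (k + 4)
  let J : ℝ := -a 1 + 5 * a 2 - 2 * a 3
  let R : ℝ := ∑ j, ∑' k, |conv Q0 V k 0 j|
  have R0 : 0 ≤ R := Finset.sum_nonneg fun _ _ => tsum_nonneg fun _ => abs_nonneg _
  have sa := F_sum a_sum.of_abs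
  have J0 : 0 < J := by
    change 0 < -a 1 + 5 * a 2 - 2 * a 3
    rw [← sa.2.2]
    exact (sa.1.add sa.2.1).tsum_pos (fun k => add_nonneg (F_a k).1 (F_a k).2.1) 0
      ((pow_pos (G_pos _) 2).trans_le (F_a 0).2.2)
  let ε : ℝ := J / (R + 1)
  have e0 : 0 < ε := by positivity
  let U : Seq 2 1 := col [-1, 1] [ε]
  have fH := fir (X := H) fun k => by
    ext i j
    have z : ∀ m, a0 (k + 4 + m) = 0 := fun m => if_neg (by omega)
    have z0 : a0 (k + 4) = 0 := z 0
    fin_cases i <;> fin_cases j <;> simp [H, F1, F2, z, z0]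
  have fU := fir (X := U) fun k => by ext i j; fin_cases i <;> simp [U, col]
  have fV := fir (X := V) fun k => by ext i j; fin_cases j <;> simp [V, row]
  let u : Seq 1 1 → ℕ → ℝ := fun Q m => a0 m + pad 4 (fun k => Q k 0 0) m
  have u4 : ∀ Q, ∀ m < 4, u Q m = a m := fun Q m hm => by simp [u, a0, pad, hm]
  have us : ∀ Q, InL1 Q → Summable (u Q) := fun Q hQ => by
    rw [← summable_nat_add_iff 4]
    simpa [u, a0, pad] using (hQ 0 0).of_abs
  have uq : ∀ (Q : Seq 1 1) m, pad 3 (fun k => conv U Q k 0 0) m =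
      pad 4 (fun k => Q k 0 0) m - pad 4 (fun k => Q k 0 0) (m + 1) := fun Q m => by
    rcases m with _ | _ | _ | _ | m
    · simp [pad]
    · simp [pad]
    · simp [pad]
    · simp [pad, conv_ap, U, col]
    · simp only [pad]
      rw [if_neg (by omega), if_neg (by omega), if_neg (by omega), conv_ap,
        show m + 1 + 1 + 1 + 1 - 3 = m + 1 by omega, Finset.sum_range_succ', Finset.sum_range_succ']
      simp [U, col]
      ring
  have r1 : ∀ (Q : Seq 1 1) k, (H - conv (conv U Q) V) k 0 0 = F1 (u Q) k ∧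
      (H - conv (conv U Q) V) k 0 1 = F2 (u Q) k := fun Q k => by
    simp only [Pi.sub_apply, Matrix.sub_apply, conv_ap _ V]
    rw [cv (fun t => conv U Q t 0 0) (fun t => V t 0 0) fun m => by simp [V, row],
      cv (fun t => conv U Q t 0 0) (fun t => V t 0 1) fun m => by simp [V, row]]
    simp only [uq]
    simp [V, row, H, F1, F2, u, add_assoc]
    constructor <;> ring
  have r2 : ∀ (Q : Seq 1 1) k j, (H - conv (conv U Q) V) k 1 j = -(ε * conv Q V k 0 j) :=
    fun Q k j => by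
    have e : ∀ t, conv U Q t 1 0 = ε * Q t 0 0 := fun t => by
      rw [conv_ap, Finset.sum_range_succ']
      simp [U, col]
    have : H k 1 j = 0 := by fin_cases j <;> simp [H]
    simp only [Pi.sub_apply, Matrix.sub_apply, conv_ap _ V, e, this, Finset.mul_sum, mul_assoc,
      zero_sub]
  have lo : ∀ Q, ∑' k, |F1 (u Q) k| + ∑' k, |F2 (u Q) k| ≤ norm1 (H - conv (conv U Q) V) :=
    fun Q => by
    refine le_trans (le_of_eq ?_) (le_ciSup (Finite.bddAbove_range _) 0)
    simp only [Fin.sum_univ_two, r1]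
  have gap : ∀ Q, InL1 Q → ∑' k, |F1 (u Q) k| + ∑' k, |F2 (u Q) k| =
      J + ∑' k, (|F1 (u Q) k| - F1 (u Q) k + (|F2 (u Q) k| - F2 (u Q) k)) := fun Q hQ => by
    obtain ⟨s1, s2, s3⟩ := F_sum (us Q hQ)
    rw [u4 Q 1 (by norm_num), u4 Q 2 (by norm_num), u4 Q 3 (by norm_num), s1.tsum_add s2] at s3
    rw [(s1.abs.sub s1).tsum_add (s2.abs.sub s2), s1.abs.tsum_sub s1, s2.abs.tsum_sub s2]
    simp only [J]
    linarith
  have nn : ∀ (Q : Seq 1 1) k, 0 ≤ |F1 (u Q) k| - F1 (u Q) k + (|F2 (u Q) k| - F2 (u Q) k) :=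
    fun Q k => by linarith [le_abs_self (F1 (u Q) k), le_abs_self (F2 (u Q) k)]
  have l0 : InL1 Q0 := fun _ _ => (summable_nat_add_iff 4).2 a_sum
  have u0 : u Q0 = a := by
    funext m
    rcases lt_or_ge m 4 with h | h
    · exact u4 _ m h
    · simp [u, a0, pad, Q0, h, not_lt.2 h]
  have up : norm1 (H - conv (conv U Q0) V) ≤ J := by
    refine ciSup_le fun i => ?_
    fin_cases i
    · simp only [Fin.zero_eta, Fin.sum_univ_two, r1]
      rw [gap Q0 l0, u0]
      simp [abs_of_nonneg (F_a _).1, abs_of_nonneg (F_a _).2.1]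
    · simp only [Fin.mk_one, r2, abs_neg, abs_mul, abs_of_pos e0, tsum_mul_left, ← Finset.mul_sum]
      change J / (R + 1) * R ≤ J
      rw [div_mul_eq_mul_div, div_le_iff₀ (by positivity)]
      nlinarith
  have fL := fir (X := row [] [1 / ε]) fun k => by ext i j; fin_cases j <;> simp [row]
  have fR := fir (X := col [-21 / 8, 7 / 2, -11 / 8] [29 / 8, 17 / 8, -11 / 8]) fun k => by
    ext i j; fin_cases i <;> simp [col]
  refine ⟨H, U, V, fH.1, fU.1, fV.1, fH.2, fU.2, fV.2, ⟨_, fL.1, ?_⟩, ⟨_, fR.1, ?_⟩,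
    ⟨Q0, l0, fun Q hQ => ?_⟩, fun Q hQ ⟨M, ρ, _, hρ, h⟩ => ?_⟩
  · funext k
    ext i j
    obtain rfl : i = 0 := Subsingleton.elim _ _
    obtain rfl : j = 0 := Subsingleton.elim _ _
    rw [conv_ap2, Finset.sum_range_succ' fun t => row [] [1 / ε] t 0 1 * U (k - t) 1 0]
    rcases k with _ | k <;> simp [row, U, col, delta, e0.ne']
  · funext k
    ext i j
    obtain rfl : i = 0 := Subsingleton.elim _ _
    obtain rfl : j = 0 := Subsingleton.elim _ _
    rw [conv_ap2, cv (fun t => V t 0 0) (fun t => col _ _ t 0 0) fun m => by simp [col],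
      cv (fun t => V t 0 1) (fun t => col _ _ t 1 0) fun m => by simp [col]]
    rcases k with _ | _ | _ | _ | _ | _ | k <;> simp [V, row, col, delta, pad] <;> norm_num
  · have : 0 ≤ ∑' k, (|F1 (u Q) k| - F1 (u Q) k + (|F2 (u Q) k| - F2 (u Q) k)) :=
      tsum_nonneg (nn Q)
    linarith [lo Q, gap Q hQ]
  · obtain ⟨s1, s2, -⟩ := F_sum (us Q hQ.1)
    have z : ∀ k, |F1 (u Q) k| - F1 (u Q) k + (|F2 (u Q) k| - F2 (u Q) k) ≤ 0 := fun k => by
      have := ((s1.abs.sub s1).add (s2.abs.sub s2)).le_tsum k fun j _ => nn Q j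
      linarith [lo Q, gap Q hQ.1, hQ.2 Q0 l0]
    have e := uniq (us Q hQ.1).tendsto_atTop_zero (u4 Q)
      (fun k => by linarith [z k, abs_nonneg (F1 (u Q) k), le_abs_self (F2 (u Q) k)])
      fun k => by linarith [z k, abs_nonneg (F2 (u Q) k), le_abs_self (F1 (u Q) k)]
    refine not_exp (M := 2 * M) hρ fun k => ?_
    have h1 := h k 0 0
    have h2 := h k 0 1
    rw [(r1 Q k).1, e] at h1
    rw [(r1 Q k).2, e] at h2
    linarith [le_abs_self (F1 a k), le_abs_self (F2 a k)]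

end Pool.Agent.Results.MP_7f3d09_an.No
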